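import Pool.Agent.Q193.ST.Stm

set_option autoImplicit false

namespace Pool.Agent.Q179.ST

open Set Metric Filter Topology
open scoped Manifold ContDiff
open Pool.Agent.Q193.ST

universe u

section

variable {M : Type u} [TopologicalSpace M] [ChartedSpace E2 M] [IsManifold 𝓘(ℝ, E2) 1 M]

lemma contDiffOn_chart (φ : M → E3) (hφ : ContMDiff 𝓘(ℝ, E2) 𝓘(ℝ, E3) 1 φ) (p : M) :
    ContDiffOn ℝ 1 (φ ∘ (chartAt E2 p).symm) (chartAt E2 p).target := by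
  rw [← contMDiffOn_iff_contDiffOn]
  exact hφ.comp_contMDiffOn contMDiffOn_chart_symm

lemma fderiv_chart (φ : M → E3) (hφ : ContMDiff 𝓘(ℝ, E2) 𝓘(ℝ, E3) 1 φ) (p : M) {x : E2}
    (hx : x ∈ (chartAt E2 p).target) :
    ∃ B : E2 →L[ℝ] E2, Function.Bijective B ∧
      fderiv ℝ (φ ∘ (chartAt E2 p).symm) x = (tanMap φ ((chartAt E2 p).symm x)).comp B := by
  have hc : (chartAt E2 p).MDifferentiable 𝓘(ℝ, E2) 𝓘(ℝ, E2) := mdifferentiable_chart p
  have h1 := hc.symm.mfderiv_bijective hx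
  have h2 : MDifferentiableAt 𝓘(ℝ, E2) 𝓘(ℝ, E2) (chartAt E2 p).symm x :=
    hc.mdifferentiableAt_symm hx
  have h3 : MDifferentiableAt 𝓘(ℝ, E2) 𝓘(ℝ, E3) φ ((chartAt E2 p).symm x) :=
    (hφ.mdifferentiable one_ne_zero) _
  refine ⟨mfderiv 𝓘(ℝ, E2) 𝓘(ℝ, E2) (chartAt E2 p).symm x, h1, ?_⟩
  have h4 := mfderiv_comp x h3 h2
  rw [mfderiv_eq_fderiv] at h4
  exact h4

end

theorem t_IMM1 : J_IMM1.{u} := by
  intro M _ _ _ φ hφ p
  obtain ⟨hφ1, hφ2⟩ := hφ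
  set χ := chartAt E2 p with hχ
  set g : E2 → E3 := φ ∘ χ.symm with hg
  set x₀ : E2 := χ p with hx₀
  have hx₀t : x₀ ∈ χ.target := mem_chart_target E2 p
  have hgc : ContDiffOn ℝ 1 g χ.target := contDiffOn_chart φ hφ1 p
  have hgd : ∀ x ∈ χ.target, ∃ B : E2 →L[ℝ] E2, Function.Bijective B ∧
      fderiv ℝ g x = (tanMap φ (χ.symm x)).comp B := fun x hx => fderiv_chart φ hφ1 p hx
  have hinj : Function.Injective (fderiv ℝ g x₀) := by
    obtain ⟨B, hB, h⟩ := hgd x₀ hx₀t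
    rw [h]
    exact (hφ2 _).comp hB.1
  -- linear algebra
  have hι : Module.finrank ℝ ℂ = Module.finrank ℝ E2 := by
    rw [Complex.finrank_real_complex, finrank_euclideanSpace_fin]
  set ι : ℂ ≃L[ℝ] E2 := ContinuousLinearEquiv.ofFinrankEq hι with hιd
  set Λ : ℂ →L[ℝ] E3 := (fderiv ℝ g x₀).comp (ι : ℂ →L[ℝ] E2) with hΛ
  have hΛi : Function.Injective Λ := hinj.comp ι.injective
  obtain ⟨n, hn⟩ : ∃ n : E3, n ∉ LinearMap.range (Λ : ℂ →ₗ[ℝ] E3) := by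
    by_contra! h
    have h1 : LinearMap.range (Λ : ℂ →ₗ[ℝ] E3) = ⊤ := by
      rw [eq_top_iff]
      intro y _
      exact h y
    have h2 := LinearMap.finrank_range_of_inj (f := (Λ : ℂ →ₗ[ℝ] E3)) hΛi
    rw [h1, finrank_top, finrank_euclideanSpace_fin, Complex.finrank_real_complex] at h2
    omega
  set T : ℂ × ℝ →L[ℝ] E3 := Λ.coprod (ContinuousLinearMap.toSpanSingleton ℝ n) with hT
  have hTa : ∀ z : ℂ × ℝ, T z = Λ z.1 + z.2 • n := fun z => by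
    simp [hT]
  have hTi : Function.Injective T := by
    rw [injective_iff_map_eq_zero]
    rintro ⟨z, s⟩ h
    rw [hTa] at h
    by_cases hs : s = 0
    · subst hs
      simp only [zero_smul, add_zero] at h
      have := hΛi (h.trans (map_zero Λ).symm)
      simp [this]
    · exfalso
      apply hn
      refine ⟨-(s⁻¹ • z), ?_⟩
      have h1 : s • n = - Λ z := by
        rw [eq_neg_iff_add_eq_zero, add_comm]
        exact h
      change Λ (-(s⁻¹ • z)) = n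
      rw [map_neg, map_smul, ← smul_neg, ← h1, smul_smul, inv_mul_cancel₀ hs, one_smul]
  have hTs : Function.Surjective T := by
    have h1 : Module.finrank ℝ (ℂ × ℝ) = Module.finrank ℝ E3 := by
      rw [Module.finrank_prod, Complex.finrank_real_complex, Module.finrank_self,
        finrank_euclideanSpace_fin]
    exact ((T : ℂ × ℝ →ₗ[ℝ] E3).injective_iff_surjective_of_finrank_eq_finrank h1).1 hTi
  set Te : (ℂ × ℝ) ≃L[ℝ] E3 := ContinuousLinearEquiv.ofBijective T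
    (LinearMap.ker_eq_bot.2 hTi) (LinearMap.range_eq_top.2 hTs) with hTe
  have hTea : ∀ z, Te z = T z := fun z => rfl
  set L : E3 →L[ℝ] ℂ := (ContinuousLinearMap.fst ℝ ℂ ℝ).comp (Te.symm : E3 →L[ℝ] ℂ × ℝ) with hL
  set ν : E3 →L[ℝ] ℝ := (ContinuousLinearMap.snd ℝ ℂ ℝ).comp (Te.symm : E3 →L[ℝ] ℂ × ℝ) with hν
  have hdec : ∀ y : E3, y = Λ (L y) + ν y • n := fun y => by
    have h1 : Te (Te.symm y) = y := Te.apply_symm_apply y
    rw [hTea, hTa] at h1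
    exact h1.symm
  have hLΛ : ∀ z : ℂ, L (Λ z) = z := fun z => by
    have h1 : Te (z, 0) = Λ z := by
      rw [hTea, hTa]
      simp
    have h2 : Te.symm (Λ z) = (z, 0) := by
      rw [← h1, Te.symm_apply_apply]
    change (Te.symm (Λ z)).1 = z
    rw [h2]
  -- the inverse function theorem
  set h : E2 → ℂ := fun x => L (g x) with hh
  have hhc : ContDiffOn ℝ 1 h χ.target := L.contDiff.comp_contDiffOn hgc
  have hto : IsOpen χ.target := χ.open_target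
  have hgat : ∀ x ∈ χ.target, ContDiffAt ℝ 1 g x := fun x hx => hgc.contDiffAt (hto.mem_nhds hx)
  have hhat : ∀ x ∈ χ.target, ContDiffAt ℝ 1 h x := fun x hx => hhc.contDiffAt (hto.mem_nhds hx)
  have hgf : ∀ x ∈ χ.target, HasFDerivAt g (fderiv ℝ g x) x := fun x hx =>
    ((hgat x hx).differentiableAt one_ne_zero).hasFDerivAt
  have hhf : ∀ x ∈ χ.target, HasFDerivAt h (fderiv ℝ h x) x := fun x hx =>
    ((hhat x hx).differentiableAt one_ne_zero).hasFDerivAt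
  have hh0 : HasFDerivAt h ((ι.symm : E2 ≃L[ℝ] ℂ) : E2 →L[ℝ] ℂ) x₀ := by
    have h1 : HasFDerivAt h (L.comp (fderiv ℝ g x₀)) x₀ := L.hasFDerivAt.comp x₀ (hgf x₀ hx₀t)
    have h2 : L.comp (fderiv ℝ g x₀) = ((ι.symm : E2 ≃L[ℝ] ℂ) : E2 →L[ℝ] ℂ) := by
      ext1 v
      have h3 := hLΛ (ι.symm v)
      have h4 : Λ (ι.symm v) = fderiv ℝ g x₀ v := by
        change fderiv ℝ g x₀ (ι (ι.symm v)) = _
        rw [ι.apply_symm_apply]
      rw [h4] at h3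
      exact h3
    rwa [h2] at h1
  set S : Set E2 := χ.target ∩ (fderiv ℝ h) ⁻¹'
    (range ((↑) : (E2 ≃L[ℝ] ℂ) → E2 →L[ℝ] ℂ)) with hS
  have hSo : IsOpen S := (hhc.continuousOn_fderiv_of_isOpen hto le_rfl).isOpen_inter_preimage hto
    ContinuousLinearEquiv.isOpen
  have hx₀S : x₀ ∈ S := ⟨hx₀t, ι.symm, hh0.fderiv.symm⟩
  set ψ₀ := (hhat x₀ hx₀t).toOpenPartialHomeomorph h hh0 one_ne_zero with hψ₀
  have hψ₀c : ∀ x, ψ₀ x = h x := fun x => rfl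
  set ψ := ψ₀.restrOpen S hSo with hψ
  have hψc : ∀ x, ψ x = h x := fun x => rfl
  have hψs : ψ.source = ψ₀.source ∩ S := ψ₀.restrOpen_source S hSo
  have hψS : ∀ x ∈ ψ.source, x ∈ S := fun x hx => by
    rw [hψs] at hx
    exact hx.2
  have hx₀ψ : x₀ ∈ ψ.source := by
    rw [hψs]
    exact ⟨(hhat x₀ hx₀t).mem_toOpenPartialHomeomorph_source hh0 one_ne_zero, hx₀S⟩
  set e := χ.trans ψ with he
  have het : e.target ⊆ ψ.target := by
    rw [he, OpenPartialHomeomorph.trans_target]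
    exact inter_subset_left
  have hes : ∀ ζ, e.symm ζ = χ.symm (ψ.symm ζ) := fun ζ => rfl
  set f : ℂ → ℝ := fun ζ => ν (g (ψ.symm ζ)) with hf
  have hkey : ∀ ζ ∈ e.target, φ (e.symm ζ) = Λ ζ + f ζ • n := by
    intro ζ hζ
    have h1 : φ (e.symm ζ) = g (ψ.symm ζ) := rfl
    have h2 : L (g (ψ.symm ζ)) = ζ := by
      have := ψ.right_inv (het hζ)
      rw [hψc] at this
      exact this
    rw [h1, hdec (g (ψ.symm ζ)), h2]
  have hder : ∀ ζ ∈ e.target, ∃ A : E2 ≃L[ℝ] ℂ, HasFDerivAt ψ.symm (A.symm : ℂ →L[ℝ] E2) ζ ∧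
      ContDiffAt ℝ 1 ψ.symm ζ ∧ ψ.symm ζ ∈ χ.target := by
    intro ζ hζ
    have h1 : ψ.symm ζ ∈ ψ.source := ψ.map_target (het hζ)
    obtain ⟨h2, A, hA⟩ := hψS _ h1
    have h3 : HasFDerivAt ψ (A : E2 →L[ℝ] ℂ) (ψ.symm ζ) := by
      rw [hA]
      exact hhf _ h2
    exact ⟨A, ψ.hasFDerivAt_symm (het hζ) h3, ψ.contDiffAt_symm (het hζ) h3 (hhat _ h2), h2⟩
  have hfc : ∀ ζ ∈ e.target, ContDiffAt ℝ 1 f ζ := by
    intro ζ hζ
    obtain ⟨A, hA1, hA2, hA3⟩ := hder ζ hζ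
    exact ν.contDiff.contDiffAt.comp ζ ((hgat _ hA3).comp ζ hA2)
  refine ⟨e, f, Λ, n, ?_, ?_, ?_, ?_⟩
  · rw [he, OpenPartialHomeomorph.trans_source]
    exact ⟨mem_chart_source E2 p, hx₀ψ⟩
  · exact fun ζ hζ => (hfc ζ hζ).contDiffWithinAt
  · intro z w hzw
    apply hTi
    rw [hTa, hTa]
    exact hzw
  · intro ζ hζ
    refine ⟨hkey ζ hζ, ?_⟩
    obtain ⟨A, hA1, hA2, hA3⟩ := hder ζ hζ
    obtain ⟨B, hB, hB2⟩ := hgd _ hA3
    have h1 : HasFDerivAt (fun ζ => φ (e.symm ζ))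
        ((fderiv ℝ g (ψ.symm ζ)).comp (A.symm : ℂ →L[ℝ] E2)) ζ := (hgf _ hA3).comp ζ hA1
    have h2 : HasFDerivAt (fun ζ => Λ ζ + f ζ • n) (Λ + (fderiv ℝ f ζ).smulRight n) ζ :=
      Λ.hasFDerivAt.add (((hfc ζ hζ).differentiableAt one_ne_zero).hasFDerivAt.smul_const n)
    have h3 : (fun ζ => φ (e.symm ζ)) =ᶠ[𝓝 ζ] fun ζ => Λ ζ + f ζ • n :=
      eventually_of_mem (e.open_target.mem_nhds hζ) hkey
    have h4 : Λ + (fderiv ℝ f ζ).smulRight n =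
        (fderiv ℝ g (ψ.symm ζ)).comp (A.symm : ℂ →L[ℝ] E2) :=
      (h2.congr_of_eventuallyEq h3).unique h1
    rw [h4, hB2]
    have h5 : Function.Surjective (B.comp (A.symm : ℂ →L[ℝ] E2)) := hB.2.comp A.symm.surjective
    rw [hes]
    ext y
    constructor
    · rintro ⟨v, rfl⟩
      obtain ⟨w, rfl⟩ := h5 v
      exact ⟨w, rfl⟩
    · rintro ⟨w, rfl⟩
      exact ⟨B (A.symm w), rfl⟩

end Pool.Agent.Q179.ST
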