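import Pool.Agent.Q193.ST.Stm

set_option autoImplicit false

namespace Pool.Agent.Q179.ST

open Set Metric Filter Topology
open scoped Manifold ContDiff
open Pool.Agent.Q193.ST

universe u

lemma pair_eq {Λ : ℂ →L[ℝ] E3} {n : E3}
    (hi : Function.Injective (fun x : ℂ × ℝ => Λ x.1 + x.2 • n)) {a b : ℂ} {s t : ℝ}
    (h : Λ a + s • n = Λ b + t • n) : a = b ∧ s = t := by
  have h1 := hi (a₁ := (a, s)) (a₂ := (b, t)) h
  exact ⟨congrArg Prod.fst h1, congrArg Prod.snd h1⟩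

/-- two graphs of linear functions with the same range agree -/
lemma graph_eq {Λ : ℂ →L[ℝ] E3} {n : E3}
    (hi : Function.Injective (fun x : ℂ × ℝ => Λ x.1 + x.2 • n)) {A B : ℂ →L[ℝ] ℝ}
    (h : LinearMap.range ((Λ + A.smulRight n : ℂ →L[ℝ] E3) : ℂ →ₗ[ℝ] E3) =
      LinearMap.range ((Λ + B.smulRight n : ℂ →L[ℝ] E3) : ℂ →ₗ[ℝ] E3)) : A = B := by
  ext1 z
  have h1 : (Λ + A.smulRight n) z ∈
      LinearMap.range ((Λ + B.smulRight n : ℂ →L[ℝ] E3) : ℂ →ₗ[ℝ] E3) := by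
    rw [← h]
    exact ⟨z, rfl⟩
  obtain ⟨w, hw⟩ := h1
  have h2 : Λ w + B w • n = Λ z + A z • n := hw
  obtain ⟨h3, h4⟩ := pair_eq hi h2
  rw [← h4, h3]

theorem t_IMM2 (h1 : J_IMM1.{u}) (h2 : J_GLOB) : J_IMM2.{u} := by
  intro M _ _ _ φ hφ hST p
  obtain ⟨e, f, Λ, n, hp, hf, hi, he⟩ := h1 M φ hφ p
  have hiT : Function.Surjective (fun x : ℂ × ℝ => Λ x.1 + x.2 • n) := by
    set T : ℂ × ℝ →L[ℝ] E3 := Λ.coprod (ContinuousLinearMap.toSpanSingleton ℝ n) with hT
    have hTa : ∀ z : ℂ × ℝ, T z = Λ z.1 + z.2 • n := fun z => by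
      simp [hT]
    have hTi : Function.Injective T := by
      intro z w hzw
      rw [hTa, hTa] at hzw
      exact hi hzw
    have h1 : Module.finrank ℝ (ℂ × ℝ) = Module.finrank ℝ E3 := by
      rw [Module.finrank_prod, Complex.finrank_real_complex, Module.finrank_self,
        finrank_euclideanSpace_fin]
    have h3 := ((T : ℂ × ℝ →ₗ[ℝ] E3).injective_iff_surjective_of_finrank_eq_finrank h1).1 hTi
    intro y
    obtain ⟨z, hz⟩ := h3 y
    refine ⟨z, ?_⟩
    rw [← hz]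
    exact (hTa z).symm
  have hto : IsOpen e.target := e.open_target
  have hdiff : ∀ ζ ∈ e.target, HasFDerivAt f (fderiv ℝ f ζ) ζ := fun ζ hζ =>
    ((hf.contDiffAt (hto.mem_nhds hζ)).differentiableAt one_ne_zero).hasFDerivAt
  -- hypothesis of GLOB
  have hyp : ∀ z ∈ e.target, ∃ w, w ≠ z ∧ segment ℝ z w ⊆ e.target ∧ Flat f (segment ℝ z w) := by
    intro ζ hζ
    obtain ⟨σ, hσ, hσ0⟩ := hST (e.symm ζ)
    obtain ⟨v, hv, hl⟩ := hσ.line
    obtain ⟨⟨a, s⟩, has⟩ := hiT v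
    simp only at has
    have hmem : ∀ᶠ t in 𝓝 (0 : unitInterval), σ t ∈ e.source := by
      apply hσ.cont.continuousAt.eventually_mem
      rw [hσ0]
      exact e.open_source.mem_nhds (e.map_target hζ)
    obtain ⟨t₀, ht₀, hts⟩ : ∃ t₀ : unitInterval, (0 : ℝ) < t₀ ∧ ∀ t : unitInterval, t ≤ t₀ →
        σ t ∈ e.source := by
      rw [Metric.eventually_nhds_iff] at hmem
      obtain ⟨ε, hε, hε2⟩ := hmem
      refine ⟨⟨min (ε / 2) 1, ?_, min_le_right _ _⟩, ?_, ?_⟩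
      · positivity
      · change 0 < min (ε / 2) 1
        positivity
      · intro t ht
        apply hε2
        have h3 : (t : ℝ) ≤ min (ε / 2) 1 := ht
        have h4 := t.2.1
        change dist (t : ℝ) 0 < ε
        rw [Real.dist_eq, sub_zero, abs_of_nonneg h4]
        have := min_le_left (ε / 2) 1
        linarith
    have hφσ : ∀ t : unitInterval, t ≤ t₀ → e (σ t) = ζ + (t : ℝ) • a ∧
        f (ζ + (t : ℝ) • a) = f ζ + (t : ℝ) * s := by
      intro t ht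
      have h3 := hts t ht
      have h4 := e.map_source h3
      have h5 := (he _ h4).1
      rw [e.left_inv h3, hl t, hσ0, (he ζ hζ).1, ← has] at h5
      have h6 : Λ (ζ + (t : ℝ) • a) + (f ζ + (t : ℝ) * s) • n =
          Λ (e (σ t)) + f (e (σ t)) • n := by
        rw [← h5, map_add, map_smul, add_smul, smul_add, mul_smul]
        abel
      obtain ⟨h7, h8⟩ := pair_eq hi h6
      exact ⟨h7.symm, by rw [h7, ← h8]⟩
    have ha : a ≠ 0 := by
      rintro rfl
      apply hv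
      have h3 := (hφσ t₀ le_rfl).2
      rw [smul_zero, add_zero] at h3
      have h4 : (t₀ : ℝ) * s = 0 := by linarith
      have h5 : s = 0 := by
        rcases mul_eq_zero.1 h4 with h | h
        · exact absurd h ht₀.ne'
        · exact h
      rw [← has, h5]
      simp
    have hseg : ∀ x ∈ segment ℝ ζ (ζ + (t₀ : ℝ) • a), ∃ t : unitInterval, t ≤ t₀ ∧
        x = ζ + (t : ℝ) • a := by
      intro x hx
      rw [segment_eq_image'] at hx
      obtain ⟨r, hr, rfl⟩ := hx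
      refine ⟨⟨r * t₀, mul_nonneg hr.1 t₀.2.1, mul_le_one₀ hr.2 t₀.2.1 t₀.2.2⟩, ?_, ?_⟩
      · change r * t₀ ≤ t₀
        nlinarith [hr.2, t₀.2.1]
      · change ζ + r • (ζ + (t₀ : ℝ) • a - ζ) = ζ + (r * t₀) • a
        rw [add_sub_cancel_left, smul_smul]
    have hfl : ∀ x ∈ segment ℝ ζ (ζ + (t₀ : ℝ) • a), x ∈ e.target ∧
        fderiv ℝ f x = fderiv ℝ f ζ := by
      intro x hx
      obtain ⟨t, ht, rfl⟩ := hseg x hx
      have h3 := hts t ht
      have h4 := (hφσ t ht).1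
      have h5 : ζ + (t : ℝ) • a ∈ e.target := by
        rw [← h4]
        exact e.map_source h3
      refine ⟨h5, ?_⟩
      have h6 := congrArg AffineSubspace.direction (hσ.plane t)
      simp only [tanPlane, AffineSubspace.direction_mk'] at h6
      have h7 := (he _ h5).2
      have h8 := (he _ hζ).2
      rw [← h4, e.left_inv h3, h6, hσ0, h8, h4] at h7
      exact (graph_eq hi h7).symm
    refine ⟨ζ + (t₀ : ℝ) • a, ?_, fun x hx => (hfl x hx).1, fun x hx y hy => ?_⟩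
    · intro h
      rw [add_eq_left] at h
      rcases smul_eq_zero.1 h with h | h
      · exact ht₀.ne' h
      · exact ha h
    · rw [(hfl x hx).2, (hfl y hy).2]
  obtain ⟨v, hv, hvt, hvf⟩ := h2 f e.target hto hf hyp (e p) (e.map_source hp)
  set ζ₀ := e p with hζ₀
  have hseg : ∀ r ∈ Icc (-1 : ℝ) 1, ζ₀ + r • v ∈ segment ℝ (ζ₀ - v) (ζ₀ + v) := by
    intro r hr
    rw [segment_eq_image']
    refine ⟨(r + 1) / 2, ⟨by linarith [hr.1], by linarith [hr.2]⟩, ?_⟩
    simp only [Complex.real_smul]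
    push_cast
    ring
  have h0 : ζ₀ ∈ segment ℝ (ζ₀ - v) (ζ₀ + v) := by
    have := hseg 0 (by simp)
    simpa using this
  have hder : ∀ r ∈ Icc (-1 : ℝ) 1, fderiv ℝ f (ζ₀ + r • v) = fderiv ℝ f ζ₀ := fun r hr =>
    hvf _ (hseg r hr) _ h0
  have hff : ∀ r ∈ Icc (-1 : ℝ) 1, f (ζ₀ + r • v) = f ζ₀ + r * fderiv ℝ f ζ₀ v := by
    have hline : ∀ r ∈ Icc (-1 : ℝ) 1,
        HasDerivWithinAt (fun r : ℝ => f (ζ₀ + r • v) - r * fderiv ℝ f ζ₀ v) 0
          (Icc (-1 : ℝ) 1) r := by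
      intro r hr
      have h3 : HasDerivAt (fun r : ℝ => ζ₀ + r • v) v r := by
        simpa using ((hasDerivAt_id r).smul_const v).const_add ζ₀
      have h4 := (hdiff _ (hvt (hseg r hr))).comp_hasDerivAt r h3
      rw [hder r hr] at h4
      have h5 : HasDerivAt (fun r : ℝ => r * fderiv ℝ f ζ₀ v) (fderiv ℝ f ζ₀ v) r := by
        simpa using (hasDerivAt_id r).mul_const (fderiv ℝ f ζ₀ v)
      have h6 := h4.sub h5
      rw [sub_self] at h6
      exact h6.hasDerivWithinAt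
    have hconst : ∀ r ∈ Icc (-1 : ℝ) 1, ∀ r' ∈ Icc (-1 : ℝ) 1,
        f (ζ₀ + r • v) - r * fderiv ℝ f ζ₀ v = f (ζ₀ + r' • v) - r' * fderiv ℝ f ζ₀ v := by
      intro r hr r' hr'
      have := (convex_Icc (-1 : ℝ) 1).norm_image_sub_le_of_norm_hasDerivWithin_le (C := 0)
        hline (fun x _ => by simp) hr' hr
      rw [zero_mul] at this
      exact sub_eq_zero.1 (norm_le_zero_iff.1 this)
    intro r hr
    have := hconst r hr 0 (by simp)
    simp only [zero_smul, add_zero, zero_mul, sub_zero] at this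
    linarith
  set w : E3 := Λ v + fderiv ℝ f ζ₀ v • n with hw
  have hw0 : w ≠ 0 := by
    intro h
    have h3 : Λ v + fderiv ℝ f ζ₀ v • n = Λ 0 + (0 : ℝ) • n := by
      rw [map_zero, zero_smul, add_zero]
      exact h
    exact hv (pair_eq hi h3).1
  have hφr : ∀ r ∈ Icc (-1 : ℝ) 1, φ (e.symm (ζ₀ + r • v)) = φ (e.symm ζ₀) + r • w := by
    intro r hr
    rw [(he _ (hvt (hseg r hr))).1, (he _ (hvt h0)).1, hff r hr, hw, map_add, map_smul, add_smul,
      smul_add, mul_smul]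
    abel
  have hdir : ∀ r ∈ Icc (-1 : ℝ) 1, tanDir φ (e.symm (ζ₀ + r • v)) = tanDir φ (e.symm ζ₀) := by
    intro r hr
    rw [(he _ (hvt (hseg r hr))).2, (he _ (hvt h0)).2, hder r hr]
  have hwd : w ∈ tanDir φ (e.symm ζ₀) := by
    rw [(he _ (hvt h0)).2]
    exact ⟨v, rfl⟩
  have hpl : ∀ r ∈ Icc (-1 : ℝ) 1, tanPlane φ (e.symm (ζ₀ + r • v)) = tanPlane φ (e.symm ζ₀) := by
    intro r hr
    unfold tanPlane
    rw [hdir r hr, hφr r hr]
    have h3 : φ (e.symm ζ₀) + r • w ∈ AffineSubspace.mk' (φ (e.symm ζ₀)) (tanDir φ (e.symm ζ₀)) := by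
      rw [AffineSubspace.mem_mk', vsub_eq_sub, add_sub_cancel_left]
      exact Submodule.smul_mem _ _ hwd
    have h4 := AffineSubspace.mk'_eq h3
    rw [AffineSubspace.direction_mk'] at h4
    exact h4
  have hr : ∀ t : unitInterval, 2 * (t : ℝ) - 1 ∈ Icc (-1 : ℝ) 1 := fun t =>
    ⟨by linarith [t.2.1], by linarith [t.2.2]⟩
  refine ⟨fun t => e.symm (ζ₀ + (2 * (t : ℝ) - 1) • v), ⟨?_, ⟨(2 : ℝ) • w, ?_, ?_⟩, ?_⟩,
    ⟨1 / 2, by norm_num, by norm_num⟩, ?_, ?_, ?_⟩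
  · have h3 : Continuous fun t : unitInterval => ζ₀ + (2 * (t : ℝ) - 1) • v := by
      fun_prop
    rw [continuous_iff_continuousAt]
    intro t
    exact (e.symm.continuousAt (hvt (hseg _ (hr t)))).comp_of_eq h3.continuousAt rfl
  · exact smul_ne_zero two_ne_zero hw0
  · intro t
    have h3 := hφr _ (hr t)
    have h4 := hφr _ (hr 0)
    change φ (e.symm (ζ₀ + (2 * (t : ℝ) - 1) • v)) =
      φ (e.symm (ζ₀ + (2 * ((0 : unitInterval) : ℝ) - 1) • v)) + (t : ℝ) • (2 : ℝ) • w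
    rw [h3, h4]
    have h5 : ((0 : unitInterval) : ℝ) = 0 := rfl
    rw [h5, add_assoc, smul_smul, ← add_smul]
    congr 2
    ring
  · intro t
    rw [hpl _ (hr t), hpl _ (hr 0)]
  · change (0 : ℝ) < 1 / 2
    norm_num
  · change (1 / 2 : ℝ) < 1
    norm_num
  · change e.symm (ζ₀ + (2 * (1 / 2 : ℝ) - 1) • v) = p
    rw [mul_one_div_cancel two_ne_zero, sub_self, zero_smul, add_zero]
    exact e.left_inv hp

end Pool.Agent.Q179.ST
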